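import Pool.Agent.H50.IX.Final

/-!
# General radial majorants: definitions

`InW W f`: `f` analytic in the disc, `f 0 = 0`, `|f' z| ≤ W |z|`. `WSet W` is the class as a
subspace of `C(D, ℂ)` (locally uniform convergence).
-/

open Complex Set Filter Topology

namespace Pool.Agent.H50.IY

open Pool.Agent.H50.IX (NQ)

/-- the class of the majorant `W` -/
structure InW (W : ℝ → ℝ) (f : ℂ → ℂ) : Prop where
  diff : DifferentiableOn ℂ f (Metric.ball 0 1)
  zero : f 0 = 0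
  le : ∀ z ∈ Metric.ball (0 : ℂ) 1, ‖deriv f z‖ ≤ W ‖z‖

/-- the class as a set of continuous functions on the disc (compact-open topology) -/
def WSet (W : ℝ → ℝ) : Set C(Metric.ball (0 : ℂ) 1, ℂ) :=
  {F | ∃ f : ℂ → ℂ, InW W f ∧ ∀ z : Metric.ball (0 : ℂ) 1, F z = f z}

/-- the members for which the quasisymmetry condition fails near `ξ` -/
def NSet (W : ℝ → ℝ) (ξ : ℂ) (δ M : ℝ) : Set (WSet W) :=
  {F | ∃ g : ℂ → ℂ, g 0 = 0 ∧
    (∀ z : Metric.ball (0 : ℂ) 1, HasDerivAt g (exp (F.1 z)) (z : ℂ)) ∧ NQ g ξ δ M}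

end Pool.Agent.H50.IY
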