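import Pool.Agent.H50.IY.Defs

/-! # The primitive of `exp f` on the open disc -/

open Complex Set Filter Topology

namespace Pool.Agent.H50.IY

/-- U (Prim.lean) -/
theorem exists_prim0 {f : ℂ → ℂ} (hf : DifferentiableOn ℂ f (Metric.ball 0 1)) :
    ∃ g : ℂ → ℂ, g 0 = 0 ∧ ∀ z ∈ Metric.ball (0 : ℂ) 1, HasDerivAt g (exp (f z)) z := by
  have hE : DifferentiableOn ℂ (fun z => exp (f z)) (Metric.ball 0 1) := hf.cexp
  obtain ⟨g₁, hg₁⟩ := hE.isExactOn_ball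
  exact ⟨fun z => g₁ z - g₁ 0, by simp, fun z hz => (hg₁ z hz).sub_const _⟩

/-- U (Prim.lean) -/
theorem prim0_unique {h g g' : ℂ → ℂ} (h0 : g 0 = 0) (h0' : g' 0 = 0)
    (hg : ∀ z ∈ Metric.ball (0 : ℂ) 1, HasDerivAt g (h z) z)
    (hg' : ∀ z ∈ Metric.ball (0 : ℂ) 1, HasDerivAt g' (h z) z) :
    ∀ z ∈ Metric.ball (0 : ℂ) 1, g z = g' z := by
  intro z hz
  have hzero : (0 : ℂ) ∈ Metric.ball (0 : ℂ) 1 := by simp
  have key := (convex_ball (0 : ℂ) 1).norm_image_sub_le_of_norm_hasDerivWithin_le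
    (f := fun z => g z - g' z) (f' := fun _ => (0 : ℂ)) (C := 0)
    (fun w hw => (((hg w hw).sub (hg' w hw)).congr_deriv (sub_self _)).hasDerivWithinAt)
    (fun w _ => by simp) hzero hz
  simp only [h0, h0', sub_zero, zero_mul] at key
  exact sub_eq_zero.1 (norm_le_zero_iff.1 key)

end Pool.Agent.H50.IY
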