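import Pool.Agent.H50.IY.Defs
import Pool.Agent.H50.IY.Prim

/-! # Density for a general majorant -/

open Complex Set Filter Topology
open Pool.Agent.H51.Becker

namespace Pool.Agent.H50.IY

open Pool.Agent.H50.IX

/-- positive, nondecreasing, `liminf (1 - ρ²) W(ρ) ≥ 1` at `1` -/
structure Major (W : ℝ → ℝ) : Prop where
  pos : 0 < W 0
  mono : ∀ ρ σ : ℝ, 0 ≤ ρ → ρ ≤ σ → σ < 1 → W ρ ≤ W σ
  lim : ∀ c < 1, ∃ ρ₁ < 1, ∀ ρ : ℝ, ρ₁ < ρ → ρ < 1 → c ≤ (1 - ρ ^ 2) * W ρ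

lemma approx_W {W : ℝ → ℝ} (hW : Major W) {f : ℂ → ℂ} (hf : InW W f) {ρ₀ : ℝ} (hρ₀ : ρ₀ < 1)
    {e : ℝ} (he : 0 < e) :
    ∃ (f₁ : ℂ → ℂ) (t N : ℝ), 0 < t ∧ 0 ≤ N ∧ f₁ 0 = 0 ∧
      (∀ z : ℂ, ‖z‖ ≤ 1 → DifferentiableAt ℂ f₁ z ∧ ‖deriv f₁ z‖ ≤ N) ∧
      (∀ z : ℂ, ‖z‖ < 1 → ‖deriv f₁ z‖ ≤ (1 - t) * W ‖z‖) ∧
      ∀ z : ℂ, ‖z‖ ≤ ρ₀ → ‖f₁ z - f z‖ < e := by
  have hsub : Metric.closedBall (0 : ℂ) ρ₀ ⊆ Metric.ball 0 1 :=
    Metric.closedBall_subset_ball hρ₀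
  have hcont : ContinuousOn f (Metric.closedBall (0 : ℂ) ρ₀) :=
    hf.diff.continuousOn.mono hsub
  have hcomp := isCompact_closedBall (0 : ℂ) ρ₀
  obtain ⟨M₀, hM₀⟩ := hcomp.exists_bound_of_continuousOn hcont
  have huc := hcomp.uniformContinuousOn_of_continuous hcont
  rw [Metric.uniformContinuousOn_iff] at huc
  obtain ⟨δ, hδ, huc⟩ := huc (e / 4) (by linarith)
  obtain ⟨ρ, hρ0, hρ1, hρδ⟩ : ∃ ρ : ℝ, 0 < ρ ∧ ρ < 1 ∧ 1 - ρ < δ := by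
    refine ⟨max (1 / 2) (1 - δ / 2), ?_, ?_, ?_⟩
    · exact lt_of_lt_of_le (by norm_num) (le_max_left _ _)
    · exact max_lt (by norm_num) (by linarith)
    · have := le_max_right (1 / 2 : ℝ) (1 - δ / 2)
      linarith
  obtain ⟨t, ht0, ht1, ht2⟩ : ∃ t : ℝ, 0 < t ∧ t ≤ 1 / 2 ∧ t * (|M₀| + 1) ≤ e / 4 := by
    have hM1 : 0 < |M₀| + 1 := by positivity
    refine ⟨min (1 / 2) (e / 4 / (|M₀| + 1)), lt_min (by norm_num) (by positivity),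
      min_le_left _ _, ?_⟩
    calc min (1 / 2) (e / 4 / (|M₀| + 1)) * (|M₀| + 1) ≤ e / 4 / (|M₀| + 1) * (|M₀| + 1) := by
          gcongr
          exact min_le_right _ _
      _ = e / 4 := by field_simp
  have hin : ∀ z : ℂ, ‖z‖ ≤ 1 → ‖(ρ : ℂ) * z‖ < 1 := by
    intro z hz
    rw [norm_mul, norm_real, Real.norm_eq_abs, abs_of_pos hρ0]
    nlinarith [norm_nonneg z]
  have hd : ∀ z : ℂ, ‖z‖ ≤ 1 → HasDerivAt (fun z => ((1 - t : ℝ) : ℂ) * f ((ρ : ℂ) * z))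
      (((1 - t : ℝ) : ℂ) * (deriv f ((ρ : ℂ) * z) * (ρ : ℂ))) z := by
    intro z hz
    have g1 : HasDerivAt f (deriv f ((ρ : ℂ) * z)) ((ρ : ℂ) * z) :=
      (hf.diff.differentiableAt (Metric.isOpen_ball.mem_nhds
        (by rw [mem_ball_zero_iff]; exact hin z hz))).hasDerivAt
    have g2 : HasDerivAt (fun z : ℂ => (ρ : ℂ) * z) (ρ : ℂ) z := by
      simpa using (hasDerivAt_id z).const_mul (ρ : ℂ)
    exact (g1.comp z g2).const_mul _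
  have hnorm : ∀ z : ℂ, ‖z‖ ≤ 1 → ‖((1 - t : ℝ) : ℂ) * (deriv f ((ρ : ℂ) * z) * (ρ : ℂ))‖ =
      (1 - t) * (‖deriv f ((ρ : ℂ) * z)‖ * ρ) := by
    intro z _
    rw [norm_mul, norm_mul, norm_real, norm_real, Real.norm_eq_abs, Real.norm_eq_abs,
      abs_of_pos hρ0, abs_of_pos (by linarith : 0 < 1 - t)]
  have hρz : ∀ z : ℂ, ‖(ρ : ℂ) * z‖ = ρ * ‖z‖ := by
    intro z
    rw [norm_mul, norm_real, Real.norm_eq_abs, abs_of_pos hρ0]
  have hWρ : 0 < W ρ := hW.pos.trans_le (hW.mono 0 ρ le_rfl hρ0.le hρ1)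
  refine ⟨fun z => ((1 - t : ℝ) : ℂ) * f ((ρ : ℂ) * z), t, W ρ, ht0, hWρ.le, ?_, ?_, ?_, ?_⟩
  · simp only [mul_zero, hf.zero]
  · intro z hz
    refine ⟨(hd z hz).differentiableAt, ?_⟩
    rw [(hd z hz).deriv, hnorm z hz]
    have g1 := hf.le ((ρ : ℂ) * z) (by rw [mem_ball_zero_iff]; exact hin z hz)
    rw [hρz] at g1
    have g2 : W (ρ * ‖z‖) ≤ W ρ := hW.mono _ _ (by positivity) (by nlinarith) hρ1
    have g3 : 0 ≤ ‖deriv f ((ρ : ℂ) * z)‖ := norm_nonneg _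
    calc (1 - t) * (‖deriv f ((ρ : ℂ) * z)‖ * ρ) ≤ 1 * (W ρ * 1) := by
          gcongr
          · linarith
          · exact g1.trans g2
      _ = W ρ := by ring
  · intro z hz
    rw [(hd z hz.le).deriv, hnorm z hz.le]
    have g1 := hf.le ((ρ : ℂ) * z) (by rw [mem_ball_zero_iff]; exact hin z hz.le)
    rw [hρz] at g1
    have g2 : W (ρ * ‖z‖) ≤ W ‖z‖ := hW.mono _ _ (by positivity)
      (by nlinarith [norm_nonneg z]) hz
    have g3 : 0 ≤ ‖deriv f ((ρ : ℂ) * z)‖ := norm_nonneg _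
    have g4 : 0 ≤ W ‖z‖ := (norm_nonneg _).trans (g1.trans g2)
    calc (1 - t) * (‖deriv f ((ρ : ℂ) * z)‖ * ρ) ≤ (1 - t) * (W ‖z‖ * 1) := by
          have : 0 ≤ 1 - t := by linarith
          gcongr
          exact g1.trans g2
      _ = (1 - t) * W ‖z‖ := by ring
  · intro z hz
    have hzc : z ∈ Metric.closedBall (0 : ℂ) ρ₀ := by rwa [mem_closedBall_zero_iff]
    have hρzc : (ρ : ℂ) * z ∈ Metric.closedBall (0 : ℂ) ρ₀ := by
      rw [mem_closedBall_zero_iff, hρz]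
      nlinarith [norm_nonneg z]
    have g1 : dist (f ((ρ : ℂ) * z)) (f z) < e / 4 := by
      refine huc _ hρzc _ hzc ?_
      rw [dist_eq_norm]
      have e1 : (ρ : ℂ) * z - z = -(((1 - ρ : ℝ) : ℂ) * z) := by push_cast; ring
      rw [e1, norm_neg, norm_mul, norm_real, Real.norm_eq_abs, abs_of_pos (by linarith : 0 < 1 - ρ)]
      have : ‖z‖ ≤ 1 := hz.trans hρ₀.le
      nlinarith [norm_nonneg z]
    rw [dist_eq_norm] at g1
    have g2 := hM₀ _ hρzc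
    have g3 : t * ‖f ((ρ : ℂ) * z)‖ ≤ e / 4 := by
      refine le_trans ?_ ht2
      gcongr
      exact g2.trans ((le_abs_self _).trans (by linarith))
    have e2 : ((1 - t : ℝ) : ℂ) * f ((ρ : ℂ) * z) - f z =
        (f ((ρ : ℂ) * z) - f z) - (t : ℂ) * f ((ρ : ℂ) * z) := by push_cast; ring
    show ‖((1 - t : ℝ) : ℂ) * f ((ρ : ℂ) * z) - f z‖ < e
    rw [e2]
    have g4 := norm_sub_le (f ((ρ : ℂ) * z) - f z) ((t : ℂ) * f ((ρ : ℂ) * z))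
    rw [norm_mul (t : ℂ), norm_real, Real.norm_eq_abs, abs_of_pos ht0] at g4
    linarith

theorem dens {W : ℝ → ℝ} (hW : Major W) {f : ℂ → ℂ} (hf : InW W f)
    {ξ : ℂ} (hξ : ‖ξ‖ = 1) {δ ε ρ₀ : ℝ} (M : ℝ) (hδ : 0 < δ) (hε : 0 < ε) (hρ₀ : ρ₀ < 1) :
    ∃ f' g' : ℂ → ℂ, InW W f' ∧ g' 0 = 0 ∧
      (∀ z ∈ Metric.ball (0 : ℂ) 1, HasDerivAt g' (exp (f' z)) z) ∧
      (∀ z : ℂ, ‖z‖ ≤ ρ₀ → ‖f' z - f z‖ ≤ ε) ∧ NQ g' ξ δ M := by
  obtain ⟨a, ha, ha', v₁, v₂, v₃, h1, h2, h3, h12, hM⟩ := pts M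
  obtain ⟨κ, hκ, hnorm⟩ := norm_ph ha ha'
  obtain ⟨f₁, t, N, ht, hN, h10, hf₁N, hf₁W, hclose⟩ := approx_W hW hf hρ₀ (half_pos hε)
  have hfold := Pool.Agent.H50.IT.foldE (e := 0) ha ha' (by simp)
  have hφ : ∀ v : ℂ, 0 ≤ v.re → 200 ≤ ‖v‖ → ‖ph a v‖ ≤ 200 / ‖v‖ ^ 2 := hfold.φ_far
  have hβ : ∀ v : ℂ, 0 ≤ v.re → 200 ≤ ‖v‖ → ‖bt a v‖ ≤ 200 / ‖v‖ := hfold.β_far
  obtain ⟨ρ₁, hρ₁, hWlim⟩ := hW.lim (1 - κ / 2) (by linarith)
  set e : ℝ := (‖GG a v₁ - GG a v₂‖ - M * ‖GG a v₁ - GG a v₃‖) / (2 * (|M| + 1)) with he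
  have hM1 : 0 < |M| + 1 := by positivity
  have he0 : 0 < e := by
    rw [he]
    exact div_pos (by linarith) (by positivity)
  have heM : (|M| + 1) * e < ‖GG a v₁ - GG a v₂‖ - M * ‖GG a v₁ - GG a v₃‖ := by
    have e1 : (|M| + 1) * e =
        (‖GG a v₁ - GG a v₂‖ - M * ‖GG a v₁ - GG a v₃‖) / 2 := by
      rw [he]
      field_simp
    rw [e1]
    linarith
  obtain ⟨s₁, hs₁, hlim₁⟩ := IX.lim ha ha' hf₁N hξ h1 h3 he0
  obtain ⟨s₂, hs₂, hlim₂⟩ := IX.lim ha ha' hf₁N hξ h1 h2 he0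
  set d : ℝ := min ((1 - ρ₁) / 2) (κ / (4 * N + 1)) with hd
  have hρ₁' : 0 < 1 - ρ₁ := by linarith
  have hd0 : 0 < d := lt_min (by positivity) (by positivity)
  have hdρ : ρ₁ < 1 - d := by
    have := min_le_left ((1 - ρ₁) / 2) (κ / (4 * N + 1))
    linarith
  have hdN : 4 * N * d ≤ κ := by
    have e1 : d ≤ κ / (4 * N + 1) := min_le_right _ _
    rw [le_div_iff₀ (by positivity)] at e1
    nlinarith
  have hρ : 0 < 1 - ρ₀ := by linarith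
  have hW0 := hW.pos
  have ev : ∀ c : ℝ, 0 < c → ∀ᶠ s in 𝓝[>] (0 : ℝ), s < c := fun c hc =>
    mem_nhdsWithin_of_mem_nhds (Iio_mem_nhds hc)
  have hall : ∀ᶠ s in 𝓝[>] (0 : ℝ), 0 < s ∧ s < s₁ ∧ s < s₂ ∧ s < d / 200 ∧
      s < t * W 0 * d ^ 2 / 200 ∧ s < (1 - ρ₀) / 200 ∧ s < ε / 4 * (1 - ρ₀) / 200 ∧
      s < 1 / 200 ∧
      s < ε / 4 / 200 ∧ s < δ / (‖v₁‖ + 1) ∧ s < δ / (‖v₂‖ + 1) ∧ s < δ / (‖v₃‖ + 1) ∧
      s < 2 * v₁.re / (‖v₁‖ ^ 2 + 1) ∧ s < 2 * v₂.re / (‖v₂‖ ^ 2 + 1) ∧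
      s < 2 * v₃.re / (‖v₃‖ ^ 2 + 1) := by
    refine (eventually_mem_nhdsWithin (a := (0 : ℝ)) (s := Ioi 0)).and ?_
    refine (ev _ hs₁).and <| (ev _ hs₂).and <| (ev _ (by positivity)).and <|
      (ev _ (by positivity)).and <| (ev _ (by positivity)).and <| (ev _ (by positivity)).and <|
      (ev _ (by positivity)).and <| (ev _ (by positivity)).and <| (ev _ (by positivity)).and <|
      (ev _ (by positivity)).and <| (ev _ (by positivity)).and <| (ev _ (by positivity)).and <|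
      (ev _ (by positivity)).and (ev _ (by positivity))
  obtain ⟨s, hs, c1, c2, c3, c4, c5, c6, c7, c8, c9, c10, c11, c12, c13, c14⟩ := hall.exists
  have hsC : (s : ℂ) ≠ 0 := by exact_mod_cast hs.ne'
  set U : ℂ → ℂ := fun z => 1 - (starRingEnd ℂ) ξ * z with hU
  set f' : ℂ → ℂ := fun z => f₁ z + (bt a (U z / (s : ℂ)) - bt a (1 / (s : ℂ))) with hf'
  have hUre : ∀ z : ℂ, ‖z‖ < 1 → 0 < (U z).re := by
    intro z hz
    have g1 := U_re (z := z) hξ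
    have g2 : 0 < 1 - ‖z‖ ^ 2 := by nlinarith [norm_nonneg z]
    simp only [hU]
    linarith
  have hUs : ∀ z : ℂ, ‖z‖ < 1 → 0 ≤ (U z / (s : ℂ)).re := by
    intro z hz
    rw [div_ofReal_re]
    exact div_nonneg (hUre z hz).le hs.le
  have hder : ∀ z : ℂ, ‖z‖ < 1 → HasDerivAt f'
      (deriv f₁ z + ph a (U z / (s : ℂ)) * (-(starRingEnd ℂ) ξ / (s : ℂ))) z := by
    intro z hz
    have g1 := (hf₁N z hz.le).1.hasDerivAt
    have g2 : HasDerivAt (fun z => U z / (s : ℂ)) (-(starRingEnd ℂ) ξ / (s : ℂ)) z := by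
      have g3 : HasDerivAt (fun z : ℂ => 1 - (starRingEnd ℂ) ξ * z) (-(starRingEnd ℂ) ξ) z := by
        simpa using ((hasDerivAt_id z).const_mul ((starRingEnd ℂ) ξ)).const_sub 1
      exact g3.div_const _
    have g4 := (hasDerivAt_bt ha ha' (hUs z hz)).comp z g2
    exact g1.add (g4.sub_const _)
  have hphn : ∀ z : ℂ, ‖ph a (U z / (s : ℂ)) * (-(starRingEnd ℂ) ξ / (s : ℂ))‖ =
      ‖ph a (U z / (s : ℂ))‖ / s := by
    intro z
    rw [norm_mul, norm_div, norm_neg, RCLike.norm_conj, hξ, norm_real, Real.norm_eq_abs,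
      abs_of_pos hs]
    ring
  have hUn : ∀ z : ℂ, ‖U z / (s : ℂ)‖ = ‖U z‖ / s := by
    intro z
    rw [norm_div, norm_real, Real.norm_eq_abs, abs_of_pos hs]
  have htot : ∀ z : ℂ, ‖z‖ < 1 → ‖deriv f' z‖ ≤
      ‖deriv f₁ z‖ + ‖ph a (U z / (s : ℂ))‖ / s := by
    intro z hz
    rw [(hder z hz).deriv, ← hphn z]
    exact norm_add_le _ _
  have hnear : ∀ z : ℂ, ‖z‖ < 1 → ‖U z‖ ≤ d → ‖deriv f' z‖ ≤ W ‖z‖ := by
    intro z hz hzd
    have g2 : 0 < 1 - ‖z‖ ^ 2 := by nlinarith [norm_nonneg z]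
    have g3 := U_re (z := z) hξ
    have g4 := U_low (z := z) hξ
    have g45 : 1 - ‖z‖ ≤ d := g4.trans hzd
    have g5 : 1 - ‖z‖ ^ 2 ≤ 2 * d := by nlinarith [norm_nonneg z]
    have g6 : (1 - ‖z‖ ^ 2) * ‖deriv f₁ z‖ ≤ κ / 2 := by
      calc (1 - ‖z‖ ^ 2) * ‖deriv f₁ z‖ ≤ (2 * d) * N :=
            mul_le_mul g5 (hf₁N z hz.le).2 (norm_nonneg _) (by positivity)
        _ = 4 * N * d / 2 := by ring
        _ ≤ κ / 2 := by linarith
    have g7 : (1 - ‖z‖ ^ 2) * (‖ph a (U z / (s : ℂ))‖ / s) ≤ 1 - κ := by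
      calc (1 - ‖z‖ ^ 2) * (‖ph a (U z / (s : ℂ))‖ / s)
          ≤ (2 * (U z).re) * (‖ph a (U z / (s : ℂ))‖ / s) := by
            gcongr
        _ = 2 * (U z / (s : ℂ)).re * ‖ph a (U z / (s : ℂ))‖ := by
            rw [div_ofReal_re]; ring
        _ ≤ 1 - κ := hnorm _ (hUs z hz)
    have g8 := hWlim ‖z‖ (by linarith) hz
    have g9 := mul_le_mul_of_nonneg_left (htot z hz) g2.le
    rw [mul_add] at g9
    exact le_of_mul_le_mul_left (by linarith) g2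
  have hfar : ∀ z : ℂ, ‖z‖ < 1 → d < ‖U z‖ → ‖deriv f' z‖ ≤ W ‖z‖ := by
    intro z hz hzd
    have g4 : 200 ≤ ‖U z / (s : ℂ)‖ := by
      rw [hUn, le_div_iff₀ hs]
      linarith
    have g5 := hφ _ (hUs z hz) g4
    rw [hUn] at g5
    have g6 : ‖ph a (U z / (s : ℂ))‖ / s ≤ t * W 0 := by
      have hU0 : 0 < ‖U z‖ := hd0.trans hzd
      calc ‖ph a (U z / (s : ℂ))‖ / s ≤ 200 / (‖U z‖ / s) ^ 2 / s := by gcongr
        _ = 200 * s / ‖U z‖ ^ 2 := by field_simp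
        _ ≤ 200 * s / d ^ 2 := by gcongr
        _ ≤ t * W 0 := by
          rw [div_le_iff₀ (by positivity)]
          linarith
    have g7 : W 0 ≤ W ‖z‖ := hW.mono _ _ le_rfl (norm_nonneg z) hz
    have g8 := htot z hz
    have g9 := hf₁W z hz
    nlinarith
  have hK : InW W f' := by
    refine ⟨fun z hz => ?_, ?_, fun z hz => ?_⟩
    · rw [mem_ball_zero_iff] at hz
      exact (hder z hz).differentiableAt.differentiableWithinAt
    · simp only [hf', hU, h10, mul_zero, sub_zero, sub_self, add_zero]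
    · rw [mem_ball_zero_iff] at hz
      rcases le_or_gt ‖U z‖ d with hzd | hzd
      · exact hnear z hz hzd
      · exact hfar z hz hzd
  obtain ⟨g', hg0, hg'⟩ := exists_prim0 hK.diff
  refine ⟨f', g', hK, hg0, hg', fun z hz => ?_, ?_⟩
  · have hz1 : ‖z‖ < 1 := lt_of_le_of_lt hz hρ₀
    have g1 := hclose z hz
    have g2 : 1 - ρ₀ ≤ ‖U z‖ := by
      have := U_low (z := z) hξ
      simp only [hU]
      linarith
    have hU0 : 0 < ‖U z‖ := hρ.trans_le g2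
    have g3 : 200 ≤ ‖U z / (s : ℂ)‖ := by
      rw [hUn, le_div_iff₀ hs]
      linarith
    have g4 : ‖bt a (U z / (s : ℂ))‖ ≤ ε / 4 := by
      refine (hβ _ (hUs z hz1) g3).trans ?_
      rw [hUn]
      calc 200 / (‖U z‖ / s) = 200 * s / ‖U z‖ := by field_simp
        _ ≤ 200 * s / (1 - ρ₀) := by gcongr
        _ ≤ ε / 4 := by
          rw [div_le_iff₀ hρ]
          linarith
    have g5 : ‖(1 : ℂ) / (s : ℂ)‖ = 1 / s := by
      rw [norm_div, norm_one, norm_real, Real.norm_eq_abs, abs_of_pos hs]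
    have g6 : ‖bt a (1 / (s : ℂ))‖ ≤ ε / 4 := by
      refine (hβ _ ?_ ?_).trans ?_
      · rw [div_ofReal_re, one_re]
        positivity
      · rw [g5, le_div_iff₀ hs]
        linarith
      · rw [g5]
        calc 200 / (1 / s) = 200 * s := by field_simp
          _ ≤ ε / 4 := by linarith
    have g7 : f' z - f z = (f₁ z - f z) + (bt a (U z / (s : ℂ)) - bt a (1 / (s : ℂ))) := by
      simp only [hf']
      ring
    rw [g7]
    have g8 := norm_add_le (f₁ z - f z) (bt a (U z / (s : ℂ)) - bt a (1 / (s : ℂ)))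
    have g9 := norm_sub_le (bt a (U z / (s : ℂ))) (bt a (1 / (s : ℂ)))
    linarith
  · have hdg : ∀ z ∈ Metric.ball (0 : ℂ) 1, HasDerivAt g'
        (exp (f₁ z + (bt a ((1 - (starRingEnd ℂ) ξ * z) / (s : ℂ)) - bt a (1 / (s : ℂ))))) z :=
      fun z hz => hg' z hz
    have k1 := hlim₁ s hs c1.le g' hdg
    have k2 := hlim₂ s hs c2.le g' hdg
    set A : ℂ := -ξ * (s : ℂ) * exp (f₁ ξ - bt a (1 / (s : ℂ))) with hA
    have hA0 : A ≠ 0 := by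
      rw [hA]
      refine mul_ne_zero (mul_ne_zero (neg_ne_zero.2 ?_) hsC) (exp_ne_zero _)
      intro h
      rw [h, norm_zero] at hξ
      norm_num at hξ
    have hmem : ∀ v : ℂ, 0 < v.re → s < 2 * v.re / (‖v‖ ^ 2 + 1) →
        ξ * (1 - (s : ℂ) * v) ∈ Metric.ball (0 : ℂ) 1 := by
      intro v hv hv2
      refine mem_disc hξ hs ?_
      rw [lt_div_iff₀ (by positivity)] at hv2
      nlinarith
    have hsub : ∀ v w : ℂ, ‖ξ * (1 - (s : ℂ) * v) - ξ * (1 - (s : ℂ) * w)‖ = s * ‖v - w‖ := by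
      intro v w
      have : ξ * (1 - (s : ℂ) * v) - ξ * (1 - (s : ℂ) * w) = -(ξ * ((s : ℂ) * (v - w))) := by ring
      rw [this, norm_neg, norm_mul, hξ, one_mul, norm_mul, norm_real, Real.norm_eq_abs,
        abs_of_pos hs]
    have hdist : ∀ v : ℂ, s < δ / (‖v‖ + 1) → ‖ξ * (1 - (s : ℂ) * v) - ξ‖ < δ := by
      intro v hv
      have : ξ * (1 - (s : ℂ) * v) - ξ = -(ξ * ((s : ℂ) * v)) := by ring
      rw [this, norm_neg, norm_mul, hξ, one_mul, norm_mul, norm_real, Real.norm_eq_abs,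
        abs_of_pos hs]
      rw [lt_div_iff₀ (by positivity)] at hv
      nlinarith
    refine ⟨_, hmem v₁ h1 c12, _, hmem v₂ h2 c13, _, hmem v₃ h3 c14, hdist v₁ c9, hdist v₂ c10,
      hdist v₃ c11, ?_, ?_⟩
    · rw [hsub, hsub]
      exact mul_le_mul_of_nonneg_left h12 hs.le
    · set X := (g' (ξ * (1 - (s : ℂ) * v₁)) - g' (ξ * (1 - (s : ℂ) * v₃))) / A with hX
      set Y := (g' (ξ * (1 - (s : ℂ) * v₁)) - g' (ξ * (1 - (s : ℂ) * v₂))) / A with hY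
      have e1 : g' (ξ * (1 - (s : ℂ) * v₁)) - g' (ξ * (1 - (s : ℂ) * v₃)) = X * A := by
        rw [hX, div_mul_cancel₀ _ hA0]
      have e2 : g' (ξ * (1 - (s : ℂ) * v₁)) - g' (ξ * (1 - (s : ℂ) * v₂)) = Y * A := by
        rw [hY, div_mul_cancel₀ _ hA0]
      rw [e1, e2, norm_mul X A, norm_mul Y A, ← mul_assoc]
      refine mul_lt_mul_of_pos_right ?_ (norm_pos_iff.2 hA0)
      have e3 : |‖X‖ - ‖GG a v₁ - GG a v₃‖| ≤ e := (abs_norm_sub_norm_le _ _).trans k1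
      have e4 : |‖Y‖ - ‖GG a v₁ - GG a v₂‖| ≤ e := (abs_norm_sub_norm_le _ _).trans k2
      have e5 : M * (‖X‖ - ‖GG a v₁ - GG a v₃‖) ≤ |M| * e := by
        calc M * (‖X‖ - ‖GG a v₁ - GG a v₃‖) ≤ |M * (‖X‖ - ‖GG a v₁ - GG a v₃‖)| := le_abs_self _
          _ = |M| * |‖X‖ - ‖GG a v₁ - GG a v₃‖| := abs_mul _ _
          _ ≤ |M| * e := by gcongr
      have e6 := (abs_le.1 e4).1
      nlinarith

end Pool.Agent.H50.IY
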