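import Pool.Agent.H50.IY.Prim
import Pool.Agent.H50.IW.TopA

/-! # The failure of the quasisymmetry condition is an open condition, for every majorant -/

open Complex Set Filter Topology

namespace Pool.Agent.H50.IY

open Pool.Agent.H50.IX (NQ)
open Pool.Agent.H50.IW (isCompact_le)

/-- the exponential as a continuous map -/
noncomputable def expC : C(ℂ, ℂ) := ⟨exp, Complex.continuous_exp⟩

/-- O (Open.lean) -/
theorem isOpen_NSet (W : ℝ → ℝ) (ξ : ℂ) (δ M : ℝ) : IsOpen (NSet W ξ δ M) := by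
  classical
  rw [isOpen_iff_mem_nhds]
  rintro F ⟨g, hg0, hg, z₁, h₁, z₂, h₂, z₃, h₃, d₁, d₂, d₃, h12, hlt⟩
  set η : ℝ := (‖g z₁ - g z₂‖ - M * ‖g z₁ - g z₃‖) / (4 * (1 + |M|)) with hη
  have hM : 0 ≤ |M| := abs_nonneg M
  have hη0 : 0 < η := div_pos (by linarith) (by positivity)
  have hηe : 4 * (1 + |M|) * η = ‖g z₁ - g z₂‖ - M * ‖g z₁ - g z₃‖ := by
    rw [hη]
    field_simp
  -- a smaller disc with the three points
  obtain ⟨ρ, hρ, r₁, r₂, r₃⟩ : ∃ ρ < 1, ‖z₁‖ ≤ ρ ∧ ‖z₂‖ ≤ ρ ∧ ‖z₃‖ ≤ ρ := by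
    refine ⟨max ‖z₁‖ (max ‖z₂‖ ‖z₃‖), ?_, le_max_left _ _,
      (le_max_left _ _).trans (le_max_right _ _), (le_max_right _ _).trans (le_max_right _ _)⟩
    exact max_lt (mem_ball_zero_iff.1 h₁) (max_lt (mem_ball_zero_iff.1 h₂)
      (mem_ball_zero_iff.1 h₃))
  have hρ0 : 0 ≤ ρ := (norm_nonneg _).trans r₁
  have hcont : Tendsto (fun F' : WSet W => expC.comp F'.1) (𝓝 F) (𝓝 (expC.comp F.1)) :=
    ((ContinuousMap.continuous_postcomp expC).comp continuous_subtype_val).tendsto F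
  have h1 := (ContinuousMap.tendsto_iff_forall_isCompact_tendstoUniformlyOn.1 hcont)
    _ (isCompact_le hρ)
  rw [Metric.tendstoUniformlyOn_iff] at h1
  filter_upwards [h1 η hη0] with F' hF'
  obtain ⟨f', hf', hFf'⟩ := F'.2
  obtain ⟨g', hg0', hg'⟩ := exists_prim0 hf'.diff
  have hcl : ∀ z : ℂ, ‖z‖ ≤ ρ → ‖g' z - g z‖ ≤ η := by
    intro z hz
    have hsub : ∀ w ∈ Metric.closedBall (0 : ℂ) ρ, w ∈ Metric.ball (0 : ℂ) 1 := fun w hw =>
      mem_ball_zero_iff.2 ((mem_closedBall_zero_iff.1 hw).trans_lt hρ)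
    have key := (convex_closedBall (0 : ℂ) ρ).norm_image_sub_le_of_norm_hasDerivWithin_le
      (f := fun z => g' z - g z)
      (f' := fun w => exp (f' w) - (if h : w ∈ Metric.ball (0 : ℂ) 1 then exp (F.1 ⟨w, h⟩) else 0))
      (C := η) (fun w hw => by
        have hwb := hsub w hw
        simp only [hwb, dif_pos]
        exact ((hg' w hwb).sub (hg ⟨w, hwb⟩)).hasDerivWithinAt) (fun w hw => by
        have hwb := hsub w hw
        simp only [hwb, dif_pos]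
        have h3 := hF' ⟨w, hwb⟩ (mem_closedBall_zero_iff.1 hw)
        rw [dist_comm, dist_eq_norm] at h3
        have e1 : (expC.comp F'.1) ⟨w, hwb⟩ = exp (f' w) := by
          show exp (F'.1 ⟨w, hwb⟩) = exp (f' w)
          rw [hFf' ⟨w, hwb⟩]
        have e2 : (expC.comp F.1) ⟨w, hwb⟩ = exp (F.1 ⟨w, hwb⟩) := rfl
        rw [e1, e2] at h3
        exact h3.le)
      (Metric.mem_closedBall_self hρ0) (mem_closedBall_zero_iff.2 hz)
    simp only [hg0, hg0', sub_zero] at key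
    refine key.trans ?_
    exact mul_le_of_le_one_right hη0.le (hz.trans hρ.le)
  refine ⟨g', hg0', fun z => ?_, z₁, h₁, z₂, h₂, z₃, h₃, d₁, d₂, d₃, h12, ?_⟩
  · rw [hFf' z]
    exact hg' z z.2
  have c₁ := hcl z₁ r₁
  have c₂ := hcl z₂ r₂
  have c₃ := hcl z₃ r₃
  have t12 : |‖g' z₁ - g' z₂‖ - ‖g z₁ - g z₂‖| ≤ 2 * η := by
    refine (abs_norm_sub_norm_le _ _).trans ?_
    have e : g' z₁ - g' z₂ - (g z₁ - g z₂) = (g' z₁ - g z₁) - (g' z₂ - g z₂) := by ring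
    rw [e]
    refine (norm_sub_le _ _).trans ?_
    linarith
  have t13 : |‖g' z₁ - g' z₃‖ - ‖g z₁ - g z₃‖| ≤ 2 * η := by
    refine (abs_norm_sub_norm_le _ _).trans ?_
    have e : g' z₁ - g' z₃ - (g z₁ - g z₃) = (g' z₁ - g z₁) - (g' z₃ - g z₃) := by ring
    rw [e]
    refine (norm_sub_le _ _).trans ?_
    linarith
  have t : M * (‖g' z₁ - g' z₃‖ - ‖g z₁ - g z₃‖) ≤ |M| * (2 * η) := by
    refine (le_abs_self _).trans ?_
    rw [abs_mul]
    exact mul_le_mul_of_nonneg_left t13 hM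
  have t12' := (abs_le.1 t12).1
  nlinarith

end Pool.Agent.H50.IY
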