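import Pool.Agent.H50.IY.Dens
import Pool.Agent.H50.IY.Top
import Pool.Agent.H50.IY.Open
import Pool.Agent.H50.IY.Baire

/-! # Generic functions of a critical majorant -/

open Complex Set Filter Topology

namespace Pool.Agent.H50.IY

open Pool.Agent.H50.IX (NQ NQ.congr NQ.mono)

/-- The functions `F` of the class for which `g` (`g 0 = 0`, `g' = exp F`) is not quasisymmetric
in any neighbourhood of any boundary point. -/
def NonQS (W : ℝ → ℝ) : Set (WSet W) :=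
  {F | ∃ g : ℂ → ℂ, g 0 = 0 ∧
    (∀ z : Metric.ball (0 : ℂ) 1, HasDerivAt g (exp (F.1 z)) (z : ℂ)) ∧
    ∀ ξ : ℂ, ‖ξ‖ = 1 → ∀ δ : ℝ, 0 < δ → ∀ M : ℝ, NQ g ξ δ M}

/-- the element of the class given by `f` -/
def toW {W : ℝ → ℝ} {f : ℂ → ℂ} (hf : InW W f) : WSet W :=
  ⟨⟨fun z => f z, hf.diff.continuousOn.domRestrict⟩, ⟨f, hf, fun _ => rfl⟩⟩

theorem toW_apply {W : ℝ → ℝ} {f : ℂ → ℂ} (hf : InW W f) (z : Metric.ball (0 : ℂ) 1) :
    (toW hf).1 z = f z := rfl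

theorem dense_NSet {W : ℝ → ℝ} (hW : Major W) {ξ : ℂ} (hξ : ‖ξ‖ = 1) {δ : ℝ}
    (hδ : 0 < δ) (M : ℝ) : Dense (NSet W ξ δ M) := by
  refine dense_of fun f hf ρ₀ hρ₀ ε hε => ?_
  obtain ⟨f', g', hf', hg0, hg', hclose, hN⟩ := dens hW hf hξ M hδ hε hρ₀
  refine ⟨toW hf', ⟨g', hg0, fun z => ?_, hN⟩, fun z hz => ?_⟩
  · rw [toW_apply]
    exact hg' z z.2
  · rw [toW_apply]
    exact hclose z hz

theorem generic_of {W : ℝ → ℝ} (hW : Major W) :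
    Dense (NonQS W) ∧ NonQS W ∈ residual (WSet W) := by
  have hne : Nonempty (Metric.sphere (0 : ℂ) 1) := ⟨⟨1, by simp⟩⟩
  set w : ℕ → Metric.sphere (0 : ℂ) 1 := TopologicalSpace.denseSeq _ with hw
  have hwd : DenseRange w := TopologicalSpace.denseRange_denseSeq _
  have hw1 : ∀ n, ‖(w n : ℂ)‖ = 1 := fun n => by simpa using (w n).2
  set O : ℕ × ℕ → Set (WSet W) := fun p =>
    NSet W (w p.1 : ℂ) (1 / ((p.2 : ℝ) + 1)) p.2 with hO
  have hres : (⋂ p, O p) ∈ residual (WSet W) := by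
    rw [countable_iInter_mem]
    intro p
    exact residual_of_dense_open (isOpen_NSet _ _ _ _)
      (dense_NSet hW (hw1 _) (by positivity) _)
  have hsub : (⋂ p, O p) ⊆ NonQS W := by
    intro F hF
    rw [mem_iInter] at hF
    obtain ⟨g, hg0, hg, -⟩ := hF (0, 0)
    refine ⟨g, hg0, hg, fun ξ hξ δ hδ M => ?_⟩
    obtain ⟨n, hn⟩ := hwd.exists_dist_lt (⟨ξ, by simpa using hξ⟩ : Metric.sphere (0 : ℂ) 1)
      (half_pos hδ)
    rw [Subtype.dist_eq, dist_eq_norm] at hn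
    obtain ⟨i₁, hi₁⟩ := exists_nat_one_div_lt (half_pos hδ)
    obtain ⟨i₂, hi₂⟩ := exists_nat_gt M
    set i := max i₁ i₂ with hi
    obtain ⟨g', hg0', hg', hN⟩ := hF (n, i)
    obtain ⟨f, hf, hFf⟩ := F.2
    have huniq := prim0_unique (h := fun z => exp (f z)) hg0 hg0'
      (fun z hz => by rw [← hFf ⟨z, hz⟩]; exact hg ⟨z, hz⟩)
      (fun z hz => by rw [← hFf ⟨z, hz⟩]; exact hg' ⟨z, hz⟩)
    have hN' : NQ g (w n : ℂ) (1 / ((i : ℝ) + 1)) i := NQ.congr hN huniq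
    refine hN'.mono ?_ ?_
    · have e1 : 1 / ((i : ℝ) + 1) ≤ 1 / ((i₁ : ℝ) + 1) := by
        have : (i₁ : ℝ) ≤ i := by exact_mod_cast le_max_left i₁ i₂
        exact one_div_le_one_div_of_le (by positivity) (by linarith)
      rw [norm_sub_rev]
      simp only at hn
      linarith
    · have : (i₂ : ℝ) ≤ i := by exact_mod_cast le_max_right i₁ i₂
      linarith
  have hB := baire_WSet W
  exact ⟨(dense_of_mem_residual hres).mono hsub, mem_of_superset hres hsub⟩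

theorem generic : ∀ W : ℝ → ℝ, 0 < W 0 → MonotoneOn W (Ico 0 1) →
    (∀ c < 1, ∀ᶠ ρ in 𝓝[<] (1 : ℝ), c ≤ (1 - ρ ^ 2) * W ρ) →
    Dense (NonQS W) ∧ NonQS W ∈ residual (WSet W) := by
  intro W h0 hm hl
  refine generic_of ⟨h0, fun ρ σ hρ hρσ hσ => ?_, fun c hc => ?_⟩
  · exact hm ⟨hρ, lt_of_le_of_lt hρσ hσ⟩ ⟨hρ.trans hρσ, hσ⟩ hρσ
  · obtain ⟨ρ₁, hρ₁, h⟩ := (mem_nhdsLT_iff_exists_Ioo_subset).1 (hl c hc)
    exact ⟨ρ₁, hρ₁, fun ρ h1 h2 => h ⟨h1, h2⟩⟩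

end Pool.Agent.H50.IY
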