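import Pool.Agent.H50.IY.Defs

/-! # Frames (not imported) -/

open Complex Set Filter Topology

namespace Pool.Agent.H50.IY

open Pool.Agent.H50.IX (NQ)

/-- B (Baire.lean), helper92 -/
theorem baire_WSet (W : ℝ → ℝ) : BaireSpace (WSet W) := sorry

/-- O (Open.lean), helper51; for every `W` -/
theorem isOpen_NSet (W : ℝ → ℝ) (ξ : ℂ) (δ M : ℝ) : IsOpen (NSet W ξ δ M) := sorry

/-- U (Prim.lean), helper7 -/
theorem exists_prim0 {f : ℂ → ℂ} (hf : DifferentiableOn ℂ f (Metric.ball 0 1)) :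
    ∃ g : ℂ → ℂ, g 0 = 0 ∧ ∀ z ∈ Metric.ball (0 : ℂ) 1, HasDerivAt g (exp (f z)) z := sorry

/-- U (Prim.lean), helper7 -/
theorem prim0_unique {h g g' : ℂ → ℂ} (h0 : g 0 = 0) (h0' : g' 0 = 0)
    (hg : ∀ z ∈ Metric.ball (0 : ℂ) 1, HasDerivAt g (h z) z)
    (hg' : ∀ z ∈ Metric.ball (0 : ℂ) 1, HasDerivAt g' (h z) z) :
    ∀ z ∈ Metric.ball (0 : ℂ) 1, g z = g' z := sorry

/-- T (Top.lean), helper35: copy of IW/TopB -/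
theorem dense_of {W : ℝ → ℝ} {S : Set (WSet W)}
    (h : ∀ f : ℂ → ℂ, InW W f → ∀ ρ₀ < 1, ∀ ε > 0,
      ∃ F' ∈ S, ∀ z : Metric.ball (0 : ℂ) 1, ‖(z : ℂ)‖ ≤ ρ₀ → ‖F'.1 z - f z‖ ≤ ε) :
    Dense S := sorry

end Pool.Agent.H50.IY
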